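import Mathlib
import Pool.Agent.MP_b7f7f4_co.Defs
import Pool.Agent.MP_b7f7f4_co.Main

set_option autoImplicit false

open Pool.Agent.MP_b7f7f4_co

theorem Pool.Agent.Results.MP_b7f7f4_co.OddBlockPattern.result :
    ∀ (n : ℕ) (L : Fin n → Fin n → Fin n), IsLatin L →
      (¬ ∃ (k : ℤ) (θ : Fin n → Fin n → ℤ), Odd k ∧ IsWeight L k θ) →
      ∃ m : ℕ, 1 ≤ m ∧ HasOddBlockPattern L m :=
  fun _ L hL h => main L hL h
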